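import Pool.Agent.Lib.MP_27c522_an.Mono

set_option autoImplicit false

namespace Pool.Agent.Lib.MP_27c522_an

open Filter Topology

/-- The truncated theta-type polynomial `p_n(z) = ∑_{k=0}^n (-1)^k (2k+1) z^{k(k+1)}`. -/
noncomputable def vpoly (n : ℕ) : Polynomial ℝ :=
  ∑ k ∈ Finset.range (n + 1),
    Polynomial.C ((-1 : ℝ) ^ k * (2 * (k : ℝ) + 1)) * Polynomial.X ^ (k * (k + 1))

lemma eval_vpoly (n : ℕ) (x : ℝ) : (vpoly n).eval x = PP n x := by
  unfold vpoly PP
  rw [Polynomial.eval_finsetSum]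
  apply Finset.sum_congr rfl
  intro k _
  simp

lemma PP_neg_arg (n : ℕ) (x : ℝ) : PP n (-x) = PP n x := by
  unfold PP
  apply Finset.sum_congr rfl
  intro k _
  rw [Even.neg_pow (Nat.even_mul_succ_self k)]

lemma PP_zero (n : ℕ) : PP n 0 = 1 := by
  unfold PP
  rw [Finset.sum_eq_single_of_mem 0 (by simp)]
  · simp
  · intro k _ hk
    have : k * (k + 1) ≠ 0 := by positivity
    rw [zero_pow this, mul_zero]

lemma qp_pos' {x : ℝ} (h0 : 0 ≤ x) (h1 : x < 1) (n : ℕ) : 0 < qp x n := by
  rcases h0.eq_or_lt with rfl | h0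
  · unfold qp
    apply Finset.prod_pos
    intro i _
    rw [zero_pow (by omega)]
    norm_num
  · exact qp_pos h0 h1 n

lemma continuousOn_ww (n : ℕ) {s : ℝ} (hs : s < 1) : ContinuousOn (ww n) (Set.Icc 0 s) := by
  unfold ww
  apply ContinuousOn.inv₀
  · apply Continuous.continuousOn
    apply Continuous.pow
    unfold qp
    fun_prop
  · intro x hx
    have := qp_pos' hx.1 (hx.2.trans_lt hs) n
    positivity

theorem odd_two_zeros : ∀ n : ℕ, Odd n → 3 ≤ n →
    {y : ℝ | (vpoly n).eval y = 0}.ncard = 2 ∧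
    ∃ x : ℝ, 0 < x ∧ x < 1 ∧ (vpoly n).roots = {x, -x} := by
  intro n hn hn3
  have hn3' : (3 : ℝ) ≤ n := by exact_mod_cast hn3
  -- the point zs
  obtain ⟨zs, hzs0, hzs1, hzs⟩ : ∃ zs : ℝ, 0 < zs ∧ zs < 1 ∧
      (2 * (n : ℝ) + 1) * (zs ^ 2) ^ n = 2 * n - 1 := by
    have hr0 : 0 < (2 * (n : ℝ) - 1) / (2 * n + 1) := by
      apply div_pos <;> linarith
    have hr1 : (2 * (n : ℝ) - 1) / (2 * n + 1) < 1 := by
      rw [div_lt_one (by linarith)]; linarith
    set r := (2 * (n : ℝ) - 1) / (2 * n + 1) with hr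
    refine ⟨r ^ (((2 * n : ℕ) : ℝ)⁻¹), Real.rpow_pos_of_pos hr0 _, ?_, ?_⟩
    · apply Real.rpow_lt_one hr0.le hr1
      have : (0 : ℝ) < ((2 * n : ℕ) : ℝ) := by
        have : 0 < 2 * n := by omega
        exact_mod_cast this
      positivity
    · rw [← pow_mul, Real.rpow_inv_natCast_pow hr0.le (by omega), hr]
      field_simp
  set g : ℝ → ℝ := fun x => PP n x * ww n x with hg
  have hgc : ContinuousOn g (Set.Icc 0 zs) :=
    (differentiable_PP n).continuous.continuousOn.mul (continuousOn_ww n hzs1)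
  -- in the interior of the region
  have hreg : ∀ x : ℝ, 0 < x → x < zs → (2 * (n : ℝ) + 1) * (x ^ 2) ^ n < 2 * n - 1 := by
    intro x hx0 hx
    rw [← hzs]
    have : (x ^ 2) ^ n < (zs ^ 2) ^ n := by
      rw [← pow_mul, ← pow_mul]
      exact pow_lt_pow_left₀ hx hx0.le (by omega)
    have h2 : (0 : ℝ) < 2 * n + 1 := by linarith
    exact mul_lt_mul_of_pos_left this h2
  have hanti : StrictAntiOn g (Set.Icc 0 zs) := by
    apply strictAntiOn_of_deriv_neg (convex_Icc 0 zs) hgc
    intro x hx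
    rw [interior_Icc] at hx
    exact deriv_neg hn hx.1 (hx.2.trans hzs1) (hreg x hx.1 hx.2)
  -- outside of the region
  have hout : ∀ x : ℝ, zs ≤ x → PP n x < 0 := by
    intro x hx
    have hx0 : 0 < x := hzs0.trans_le hx
    apply PP_neg hn hn3 hx0
    rw [← hzs]
    gcongr
  have hwpos : ∀ x : ℝ, 0 ≤ x → x < 1 → 0 < ww n x := by
    intro x h0 h1
    have := qp_pos' h0 h1 n
    unfold ww
    positivity
  -- existence
  obtain ⟨x, hxI, hgx⟩ : ∃ x ∈ Set.Icc 0 zs, g x = 0 := by
    have h0 : 0 ≤ g 0 := by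
      rw [hg]
      simp only
      rw [PP_zero, one_mul]
      exact (hwpos 0 le_rfl one_pos).le
    have h1 : g zs ≤ 0 := by
      have := hout zs le_rfl
      have := hwpos zs hzs0.le hzs1
      rw [hg]
      exact mul_nonpos_of_nonpos_of_nonneg (by linarith) (by linarith)
    have := intermediate_value_Icc' hzs0.le hgc
    obtain ⟨x, hx, hx'⟩ := this ⟨h1, h0⟩
    exact ⟨x, hx, hx'⟩
  have hPx : PP n x = 0 := by
    have h1 := hwpos x hxI.1 (hxI.2.trans_lt hzs1)
    rcases mul_eq_zero.1 hgx with h | h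
    · exact h
    · exact absurd h h1.ne'
  have hx0 : 0 < x := by
    rcases hxI.1.eq_or_lt with h | h
    · rw [← h, PP_zero] at hPx
      exact absurd hPx one_ne_zero
    · exact h
  have hxzs : x < zs := by
    by_contra hcon
    push Not at hcon
    have := hout x hcon
    linarith
  have hx1 : x < 1 := hxzs.trans hzs1
  -- uniqueness
  have huniq : ∀ y : ℝ, 0 < y → PP n y = 0 → y = x := by
    intro y hy0 hy
    have hyzs : y < zs := by
      by_contra hcon
      push Not at hcon
      have := hout y hcon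
      linarith
    apply hanti.injOn ⟨hy0.le, hyzs.le⟩ hxI
    rw [hgx, hg]
    simp only
    rw [hy, zero_mul]
  have hall : ∀ y : ℝ, PP n y = 0 ↔ y = x ∨ y = -x := by
    intro y
    constructor
    · intro hy
      rcases lt_trichotomy y 0 with h | h | h
      · right
        have := huniq (-y) (by linarith) (by rw [PP_neg_arg]; exact hy)
        linarith
      · rw [h, PP_zero] at hy
        exact absurd hy one_ne_zero
      · left
        exact huniq y h hy
    · rintro (rfl | rfl)
      · exact hPx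
      · rw [PP_neg_arg]; exact hPx
  have hne : x ≠ -x := by intro h; linarith
  -- simple zeros
  have hderiv : deriv (PP n) x ≠ 0 := by
    have h1 := deriv_neg hn hx0 hx1 (hreg x hx0 hxzs)
    have h2 : HasDerivAt (fun y => PP n y * ww n y)
        (deriv (PP n) x * ww n x + PP n x * (ww n x * psi n x / x)) x :=
      ((differentiable_PP n) x).hasDerivAt.mul (hasDerivAt_ww hx0 hx1 n)
    rw [h2.deriv, hPx, zero_mul, add_zero] at h1
    intro h
    rw [h, zero_mul] at h1
    exact lt_irrefl _ h1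
  have hfun : (fun y => (vpoly n).eval y) = PP n := by
    funext y; exact eval_vpoly n y
  have hderiv_eval : ∀ y : ℝ, (Polynomial.derivative (vpoly n)).eval y = deriv (PP n) y := by
    intro y
    rw [← hfun, Polynomial.deriv]
  have hderivneg : deriv (PP n) (-x) ≠ 0 := by
    have h1 : deriv (fun y => PP n (-y)) x = -deriv (PP n) (-x) := by
      rw [deriv_comp_neg]
    have h2 : (fun y => PP n (-y)) = PP n := by funext y; exact PP_neg_arg n y
    rw [h2] at h1
    intro h
    rw [h, neg_zero] at h1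
    exact hderiv h1
  have hv0 : vpoly n ≠ 0 := by
    intro h
    have := eval_vpoly n 0
    rw [h, PP_zero] at this
    simp at this
  have hmult : ∀ y : ℝ, PP n y = 0 → deriv (PP n) y ≠ 0 →
      (vpoly n).rootMultiplicity y = 1 := by
    intro y hy hd
    have h1 : 0 < (vpoly n).rootMultiplicity y := by
      rw [Polynomial.rootMultiplicity_pos hv0, Polynomial.IsRoot, eval_vpoly]
      exact hy
    have h2 : ¬ 1 < (vpoly n).rootMultiplicity y := by
      rw [Polynomial.one_lt_rootMultiplicity_iff_isRoot hv0]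
      rintro ⟨-, h3⟩
      rw [Polynomial.IsRoot, hderiv_eval] at h3
      exact hd h3
    omega
  constructor
  · have : {y : ℝ | (vpoly n).eval y = 0} = {x, -x} := by
      ext y
      rw [Set.mem_ofPred_eq, eval_vpoly, hall y]
      rfl
    rw [this, Set.ncard_pair hne]
  · refine ⟨x, hx0, hx1, ?_⟩
    ext y
    rw [Polynomial.count_roots]
    have hcount : Multiset.count y ({x, -x} : Multiset ℝ) =
        (if y = x then 1 else 0) + (if y = -x then 1 else 0) := by
      rw [Multiset.insert_eq_cons, Multiset.count_cons, Multiset.count_singleton, add_comm]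
    rw [hcount]
    by_cases h1 : y = x
    · subst h1
      rw [hmult y hPx hderiv, if_pos rfl, if_neg hne]
    · by_cases h2 : y = -x
      · subst h2
        rw [hmult (-x) (by rw [PP_neg_arg]; exact hPx) hderivneg, if_neg h1, if_pos rfl]
      · rw [if_neg h1, if_neg h2]
        apply Polynomial.rootMultiplicity_eq_zero
        rw [Polynomial.IsRoot, eval_vpoly, hall y]
        rintro (h | h)
        · exact h1 h
        · exact h2 h

/-- Form without auxiliary definitions. -/
theorem odd_two_zeros' (n : ℕ) (hn : Odd n) (hn3 : 3 ≤ n) :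
    {y : ℝ | ∑ k ∈ Finset.range (n + 1),
      (-1 : ℝ) ^ k * (2 * (k : ℝ) + 1) * y ^ (k * (k + 1)) = 0}.ncard = 2 ∧
    ∃ x : ℝ, 0 < x ∧ x < 1 ∧
      (∑ k ∈ Finset.range (n + 1), Polynomial.C ((-1 : ℝ) ^ k * (2 * (k : ℝ) + 1)) *
        Polynomial.X ^ (k * (k + 1))).roots = {x, -x} := by
  have h := odd_two_zeros n hn hn3
  refine ⟨?_, h.2⟩
  have h1 := h.1
  have h2 : {y : ℝ | (vpoly n).eval y = 0} = {y : ℝ | ∑ k ∈ Finset.range (n + 1),
      (-1 : ℝ) ^ k * (2 * (k : ℝ) + 1) * y ^ (k * (k + 1)) = 0} := by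
    have h3 : ∀ y : ℝ, (vpoly n).eval y = ∑ k ∈ Finset.range (n + 1),
      (-1 : ℝ) ^ k * (2 * (k : ℝ) + 1) * y ^ (k * (k + 1)) := fun y => eval_vpoly n y
    simp only [h3]
  rw [h2] at h1
  exact h1

end Pool.Agent.Lib.MP_27c522_an
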