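import Mathlib

set_option autoImplicit false

namespace Pool.Agent.Lib.MP_27c522_an

open Filter Topology Finset

/-- The finite product `∏_{i=1}^n (1 - z^{2i})`. -/
noncomputable def qp (z : ℝ) (n : ℕ) : ℝ := ∏ i ∈ range n, (1 - z ^ (2 * (i + 1)))

lemma qp_zero (z : ℝ) : qp z 0 = 1 := by simp [qp]

lemma qp_succ (z : ℝ) (n : ℕ) : qp z (n + 1) = qp z n * (1 - z ^ (2 * (n + 1))) := by
  rw [qp, prod_range_succ, ← qp]

section
variable {z : ℝ} (h0 : 0 < z) (h1 : z < 1)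
include h0 h1

lemma fac_pos (i : ℕ) : 0 < 1 - z ^ (2 * (i + 1)) := by
  have : z ^ (2 * (i + 1)) < 1 := pow_lt_one₀ h0.le h1 (by omega)
  linarith

lemma qp_pos (n : ℕ) : 0 < qp z n := prod_pos fun i _ => fac_pos h0 h1 i

lemma qp_anti : Antitone (qp z) := by
  apply antitone_nat_of_succ_le
  intro n
  rw [qp_succ]
  have h2 := qp_pos h0 h1 n
  have h3 : 0 < z ^ (2 * (n + 1)) := by positivity
  nlinarith

lemma summable_fac : Summable (fun i : ℕ => z ^ (2 * (i + 1))) := by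
  have : (fun i : ℕ => z ^ (2 * (i + 1))) = fun i : ℕ => z ^ 2 * (z ^ 2) ^ i := by
    funext i
    rw [← pow_mul, ← pow_add]
    congr 1
    ring
  rw [this]
  apply Summable.mul_left
  exact summable_geometric_of_lt_one (by positivity) (pow_lt_one₀ h0.le h1 (by norm_num))

/-- The limit of the finite products exists and is positive. -/
lemma exists_lim : ∃ G : ℝ, 0 < G ∧ Tendsto (qp z) atTop (𝓝 G) ∧ ∀ n, G ≤ qp z n := by
  have hs := summable_fac h0 h1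
  have hs' : Summable (fun i : ℕ => -z ^ (2 * (i + 1))) := hs.neg
  have hm : Multipliable (fun i : ℕ => 1 + -z ^ (2 * (i + 1))) :=
    Real.multipliable_one_add_of_summable hs'
  have hlog := Real.summable_log_one_add_of_summable hs'
  have hpos : ∀ i : ℕ, 0 < 1 + -z ^ (2 * (i + 1)) := fun i => by
    have := fac_pos h0 h1 i
    linarith
  have hG := Real.rexp_tsum_eq_tprod hpos hlog
  have hlim : Tendsto (qp z) atTop (𝓝 (∏' i : ℕ, (1 + -z ^ (2 * (i + 1))))) := by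
    have := hm.hasProd.tendsto_prod_nat
    refine this.congr fun n => ?_
    unfold qp
    apply prod_congr rfl
    intro i _
    ring
  refine ⟨_, ?_, hlim, ?_⟩
  · rw [← hG]
    exact Real.exp_pos _
  · intro n
    exact (qp_anti h0 h1).le_of_tendsto hlim n

end

/-- The function `1/(q;q)_m`, extended by zero to negative integers. -/
noncomputable def hh (z : ℝ) (m : ℤ) : ℝ := if 0 ≤ m then (qp z m.toNat)⁻¹ else 0

lemma hh_of_nonneg (z : ℝ) (n : ℕ) : hh z (n : ℤ) = (qp z n)⁻¹ := by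
  simp [hh]

lemma hh_of_neg (z : ℝ) {m : ℤ} (hm : m < 0) : hh z m = 0 := by
  simp [hh, not_le.2 hm]

lemma hh_rec {z : ℝ} (h0 : 0 < z) (h1 : z < 1) (m : ℤ) :
    hh z (m - 1) = (1 - z ^ (2 * m)) * hh z m := by
  rcases lt_trichotomy m 0 with hm | hm | hm
  · rw [hh_of_neg z hm, hh_of_neg z (by omega), mul_zero]
  · subst hm
    rw [hh_of_neg z (by omega)]
    simp
  · obtain ⟨n, rfl⟩ : ∃ n : ℕ, m = (n : ℤ) + 1 := ⟨(m - 1).toNat, by omega⟩
    have e1 : ((n : ℤ) + 1 - 1) = (n : ℤ) := by ring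
    have e2 : ((n : ℤ) + 1) = ((n + 1 : ℕ) : ℤ) := by push_cast; ring
    rw [e1, hh_of_nonneg, e2, hh_of_nonneg, qp_succ]
    have e3 : z ^ (2 * ((n + 1 : ℕ) : ℤ)) = z ^ (2 * (n + 1)) := by
      have : (2 * ((n + 1 : ℕ) : ℤ)) = ((2 * (n + 1) : ℕ) : ℤ) := by push_cast; ring
      rw [this, zpow_natCast]
    rw [e3]
    have h2 := qp_pos h0 h1 n
    have h3 := fac_pos h0 h1 n
    field_simp

/-- The terms of the finite identity. -/
noncomputable def TT (z : ℝ) (n : ℕ) (k : ℤ) : ℝ :=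
  (-1 : ℝ) ^ k * z ^ (k * (k + 1)) * (hh z (n - k) * hh z (n + k + 1))

lemma TT_rec {z : ℝ} (h0 : 0 < z) (h1 : z < 1) (n : ℕ) (k : ℤ) :
    (1 - z ^ (2 * (2 * (n : ℤ) + 2))) * (1 - z ^ (2 * (2 * (n : ℤ) + 3))) * TT z (n + 1) k =
      (1 + z ^ (2 * (2 * (n : ℤ) + 2))) * TT z n k
        - z ^ (2 * ((n : ℤ) + 1)) * (TT z n (k - 1) + TT z n (k + 1)) := by
  have hz : z ≠ 0 := h0.ne'
  set α := hh z ((n : ℤ) + 1 - k) with hα
  set β := hh z ((n : ℤ) + k + 2) with hβ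
  have a1 : hh z ((n : ℤ) - k) = (1 - z ^ (2 * ((n : ℤ) + 1 - k))) * α := by
    rw [hα, ← hh_rec h0 h1]; congr 1; ring
  have a2 : hh z ((n : ℤ) - k - 1) = (1 - z ^ (2 * ((n : ℤ) - k))) *
      ((1 - z ^ (2 * ((n : ℤ) + 1 - k))) * α) := by
    rw [← a1, ← hh_rec h0 h1]
  have b1 : hh z ((n : ℤ) + k + 1) = (1 - z ^ (2 * ((n : ℤ) + k + 2))) * β := by
    rw [hβ, ← hh_rec h0 h1]; congr 1; ring
  have b2 : hh z ((n : ℤ) + k) = (1 - z ^ (2 * ((n : ℤ) + k + 1))) *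
      ((1 - z ^ (2 * ((n : ℤ) + k + 2))) * β) := by
    rw [← b1, ← hh_rec h0 h1]; congr 1; ring
  set X := z ^ (2 * ((n : ℤ) - k)) with hX
  set Y := z ^ (2 * ((n : ℤ) + k + 1)) with hY
  have x1 : z ^ (2 * ((n : ℤ) + 1 - k)) = z ^ 2 * X := by
    rw [hX, ← zpow_natCast z 2, ← zpow_add₀ hz]; congr 1; push_cast; ring
  have y1 : z ^ (2 * ((n : ℤ) + k + 2)) = z ^ 2 * Y := by
    rw [hY, ← zpow_natCast z 2, ← zpow_add₀ hz]; congr 1; push_cast; ring
  have e1 : z ^ (2 * (2 * (n : ℤ) + 2)) = z ^ 2 * (X * Y) := by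
    rw [hX, hY, ← zpow_natCast z 2, ← zpow_add₀ hz, ← zpow_add₀ hz]; congr 1; push_cast; ring
  have e2 : z ^ (2 * (2 * (n : ℤ) + 3)) = z ^ 2 * (z ^ 2 * (X * Y)) := by
    rw [← e1, ← zpow_natCast z 2, ← zpow_add₀ hz]; congr 1; push_cast; ring
  -- the three terms
  have t0 : TT z (n + 1) k = (-1 : ℝ) ^ k * z ^ (k * (k + 1)) * (α * β) := by
    unfold TT
    have c1 : hh z (((n + 1 : ℕ) : ℤ) - k) = α := by rw [hα]; congr 1
    have c2 : hh z (((n + 1 : ℕ) : ℤ) + k + 1) = β := by rw [hβ]; congr 1; push_cast; ring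
    rw [c1, c2]
  have t1 : TT z n k = (-1 : ℝ) ^ k * z ^ (k * (k + 1)) *
      (((1 - z ^ 2 * X) * α) * ((1 - z ^ 2 * Y) * β)) := by
    unfold TT
    rw [a1, b1, x1, y1]
  have t2 : z ^ (2 * ((n : ℤ) + 1)) * TT z n (k - 1) = -((-1 : ℝ) ^ k * z ^ (k * (k + 1))) *
      ((z ^ 2 * X) * (α * ((1 - Y) * ((1 - z ^ 2 * Y) * β)))) := by
    unfold TT
    have c1 : hh z ((n : ℤ) - (k - 1)) = α := by rw [hα]; congr 1; ring
    have c2 : hh z ((n : ℤ) + (k - 1) + 1) = (1 - Y) * ((1 - z ^ 2 * Y) * β) := by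
      rw [← y1, ← b2]; congr 1; ring
    rw [c1, c2]
    have c3 : (-1 : ℝ) ^ (k - 1) = -(-1 : ℝ) ^ k := by
      rw [zpow_sub₀ (by norm_num), zpow_one]; ring
    have c4 : z ^ (2 * ((n : ℤ) + 1)) * z ^ ((k - 1) * (k - 1 + 1)) =
        z ^ (k * (k + 1)) * (z ^ 2 * X) := by
      rw [← x1, ← zpow_add₀ hz, ← zpow_add₀ hz]; congr 1; ring
    rw [c3]
    calc z ^ (2 * ((n : ℤ) + 1)) * (-(-1 : ℝ) ^ k * z ^ ((k - 1) * (k - 1 + 1)) *
          (α * ((1 - Y) * ((1 - z ^ 2 * Y) * β))))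
        = -(-1 : ℝ) ^ k * (z ^ (2 * ((n : ℤ) + 1)) * z ^ ((k - 1) * (k - 1 + 1))) *
          (α * ((1 - Y) * ((1 - z ^ 2 * Y) * β))) := by ring
      _ = _ := by rw [c4]; ring
  have t3 : z ^ (2 * ((n : ℤ) + 1)) * TT z n (k + 1) = -((-1 : ℝ) ^ k * z ^ (k * (k + 1))) *
      ((z ^ 2 * Y) * (((1 - X) * ((1 - z ^ 2 * X) * α)) * β)) := by
    unfold TT
    have c1 : hh z ((n : ℤ) - (k + 1)) = (1 - X) * ((1 - z ^ 2 * X) * α) := by
      rw [← x1, ← a2]; congr 1; ring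
    have c2 : hh z ((n : ℤ) + (k + 1) + 1) = β := by rw [hβ]; congr 1; ring
    rw [c1, c2]
    have c3 : (-1 : ℝ) ^ (k + 1) = -(-1 : ℝ) ^ k := by
      rw [zpow_add₀ (by norm_num), zpow_one]; ring
    have c4 : z ^ (2 * ((n : ℤ) + 1)) * z ^ ((k + 1) * (k + 1 + 1)) =
        z ^ (k * (k + 1)) * (z ^ 2 * Y) := by
      rw [← y1, ← zpow_add₀ hz, ← zpow_add₀ hz]; congr 1; ring
    rw [c3]
    calc z ^ (2 * ((n : ℤ) + 1)) * (-(-1 : ℝ) ^ k * z ^ ((k + 1) * (k + 1 + 1)) *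
          (((1 - X) * ((1 - z ^ 2 * X) * α)) * β))
        = -(-1 : ℝ) ^ k * (z ^ (2 * ((n : ℤ) + 1)) * z ^ ((k + 1) * (k + 1 + 1))) *
          (((1 - X) * ((1 - z ^ 2 * X) * α)) * β) := by ring
      _ = _ := by rw [c4]; ring
  rw [mul_add (z ^ (2 * ((n : ℤ) + 1))), t2, t3, t0, t1, e1, e2]
  ring

lemma TT_support (z : ℝ) (n : ℕ) {k : ℤ} (hk : k ∉ Finset.Icc (-(n : ℤ) - 1) n) : TT z n k = 0 := by
  rw [Finset.mem_Icc, not_and_or, not_le, not_le] at hk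
  unfold TT
  rcases hk with hk | hk
  · rw [hh_of_neg z (by omega : (n : ℤ) + k + 1 < 0)]; ring
  · rw [hh_of_neg z (by omega : (n : ℤ) - k < 0)]; ring

lemma summable_TT (z : ℝ) (n : ℕ) (c : ℤ → ℝ) : Summable (fun k => c k * TT z n k) := by
  apply summable_of_ne_finset_zero (s := Finset.Icc (-(n : ℤ) - 1) n)
  intro k hk
  rw [TT_support z n hk, mul_zero]

/-- The symmetric sum. -/
noncomputable def WW (z : ℝ) (n : ℕ) : ℝ := ∑' k : ℤ, (2 * (k : ℝ) + 1) * TT z n k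

lemma WW_rec {z : ℝ} (h0 : 0 < z) (h1 : z < 1) (n : ℕ) :
    (1 - z ^ (2 * (2 * (n : ℤ) + 2))) * (1 - z ^ (2 * (2 * (n : ℤ) + 3))) * WW z (n + 1) =
      (1 - z ^ (2 * ((n : ℤ) + 1))) ^ 2 * WW z n := by
  have hz : z ≠ 0 := h0.ne'
  have hshift1 : ∑' k : ℤ, (2 * (k : ℝ) + 1) * TT z n (k - 1) =
      ∑' k : ℤ, (2 * (k : ℝ) + 3) * TT z n k := by
    rw [← (Equiv.addRight (1 : ℤ)).tsum_eq (fun k : ℤ => (2 * (k : ℝ) + 1) * TT z n (k - 1))]
    apply tsum_congr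
    intro k
    simp only [Equiv.coe_addRight, add_sub_cancel_right]
    push_cast
    ring
  have hshift2 : ∑' k : ℤ, (2 * (k : ℝ) + 1) * TT z n (k + 1) =
      ∑' k : ℤ, (2 * (k : ℝ) - 1) * TT z n k := by
    rw [← (Equiv.addRight (1 : ℤ)).tsum_eq (fun k : ℤ => (2 * (k : ℝ) - 1) * TT z n k)]
    apply tsum_congr
    intro k
    simp only [Equiv.coe_addRight]
    push_cast
    ring
  have hs1 : Summable (fun k : ℤ => (2 * (k : ℝ) + 1) * TT z n (k - 1)) := by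
    have := (Equiv.addRight (1 : ℤ)).summable_iff (f := fun k : ℤ => (2 * (k : ℝ) + 1) * TT z n (k - 1))
    rw [← this]
    have h2 := summable_TT z n (fun k => 2 * (k : ℝ) + 3)
    refine h2.congr fun k => ?_
    simp only [Function.comp, Equiv.coe_addRight, add_sub_cancel_right]
    push_cast
    ring
  have hs2 : Summable (fun k : ℤ => (2 * (k : ℝ) + 1) * TT z n (k + 1)) := by
    have := (Equiv.addRight (-1 : ℤ)).summable_iff (f := fun k : ℤ => (2 * (k : ℝ) + 1) * TT z n (k + 1))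
    rw [← this]
    have h2 := summable_TT z n (fun k => 2 * (k : ℝ) - 1)
    refine h2.congr fun k => ?_
    simp only [Function.comp, Equiv.coe_addRight, neg_add_cancel_right]
    push_cast
    ring
  have hs0 := summable_TT z n (fun k => 2 * (k : ℝ) + 1)
  have hL : (1 - z ^ (2 * (2 * (n : ℤ) + 2))) * (1 - z ^ (2 * (2 * (n : ℤ) + 3))) * WW z (n + 1) =
      ∑' k : ℤ, ((1 + z ^ (2 * (2 * (n : ℤ) + 2))) * ((2 * (k : ℝ) + 1) * TT z n k) -
        z ^ (2 * ((n : ℤ) + 1)) * ((2 * (k : ℝ) + 1) * TT z n (k - 1) +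
          (2 * (k : ℝ) + 1) * TT z n (k + 1))) := by
    unfold WW
    rw [← tsum_mul_left]
    apply tsum_congr
    intro k
    have := TT_rec h0 h1 n k
    calc (1 - z ^ (2 * (2 * (n : ℤ) + 2))) * (1 - z ^ (2 * (2 * (n : ℤ) + 3))) *
          ((2 * (k : ℝ) + 1) * TT z (n + 1) k)
        = (2 * (k : ℝ) + 1) * ((1 - z ^ (2 * (2 * (n : ℤ) + 2))) *
          (1 - z ^ (2 * (2 * (n : ℤ) + 3))) * TT z (n + 1) k) := by ring
      _ = _ := by rw [this]; ring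
  rw [hL, Summable.tsum_sub (hs0.mul_left _) ((hs1.add hs2).mul_left _), tsum_mul_left,
    tsum_mul_left, Summable.tsum_add hs1 hs2, hshift1, hshift2,
    ← Summable.tsum_add (summable_TT z n _) (summable_TT z n _)]
  have h3 : ∑' k : ℤ, ((2 * (k : ℝ) + 3) * TT z n k + (2 * (k : ℝ) - 1) * TT z n k) =
      2 * WW z n := by
    unfold WW
    rw [← tsum_mul_left]
    apply tsum_congr
    intro k
    ring
  rw [h3]
  have h4 : z ^ (2 * (2 * (n : ℤ) + 2)) = z ^ (2 * ((n : ℤ) + 1)) * z ^ (2 * ((n : ℤ) + 1)) := by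
    rw [← zpow_add₀ hz]; congr 1; ring
  rw [h4]
  unfold WW
  ring

lemma WW_eq {z : ℝ} (h0 : 0 < z) (h1 : z < 1) (n : ℕ) :
    WW z n = 2 * (qp z n) ^ 2 / qp z (2 * n + 1) := by
  induction n with
  | zero =>
    unfold WW
    rw [tsum_eq_sum (s := Finset.Icc (-1 : ℤ) 0)]
    · have : Finset.Icc (-1 : ℤ) 0 = {-1, 0} := by decide
      rw [this, Finset.sum_pair (by norm_num)]
      have e1 : TT z 0 (-1) = -(1 - z ^ 2)⁻¹ := by
        unfold TT
        have c1 : hh z (((0 : ℕ) : ℤ) - (-1)) = (qp z 1)⁻¹ := by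
          have : (((0 : ℕ) : ℤ) - (-1)) = ((1 : ℕ) : ℤ) := by norm_num
          rw [this, hh_of_nonneg]
        have c2 : hh z (((0 : ℕ) : ℤ) + (-1) + 1) = (qp z 0)⁻¹ := by
          have : (((0 : ℕ) : ℤ) + (-1) + 1) = ((0 : ℕ) : ℤ) := by norm_num
          rw [this, hh_of_nonneg]
        rw [c1, c2, qp_zero]
        have c3 : qp z 1 = 1 - z ^ 2 := by rw [qp_succ, qp_zero]; ring
        rw [c3]
        norm_num
      have e2 : TT z 0 0 = (1 - z ^ 2)⁻¹ := by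
        unfold TT
        have c1 : hh z (((0 : ℕ) : ℤ) - 0) = (qp z 0)⁻¹ := by
          have : (((0 : ℕ) : ℤ) - 0) = ((0 : ℕ) : ℤ) := by norm_num
          rw [this, hh_of_nonneg]
        have c2 : hh z (((0 : ℕ) : ℤ) + 0 + 1) = (qp z 1)⁻¹ := by
          have : (((0 : ℕ) : ℤ) + 0 + 1) = ((1 : ℕ) : ℤ) := by norm_num
          rw [this, hh_of_nonneg]
        rw [c1, c2, qp_zero]
        have c3 : qp z 1 = 1 - z ^ 2 := by rw [qp_succ, qp_zero]; ring
        rw [c3]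
        norm_num
      rw [e1, e2, qp_zero]
      have c3 : qp z (2 * 0 + 1) = 1 - z ^ 2 := by
        rw [mul_zero, zero_add, show (1 : ℕ) = 0 + 1 from rfl, qp_succ, qp_zero]; ring
      rw [c3]
      push_cast
      ring
    · intro k hk
      rw [TT_support z 0 (by simpa using hk), mul_zero]
  | succ n ih =>
    have hrec := WW_rec h0 h1 n
    rw [ih] at hrec
    have e1 : z ^ (2 * (2 * (n : ℤ) + 2)) = z ^ (2 * (2 * n + 1 + 1)) := by
      have : (2 * (2 * (n : ℤ) + 2)) = ((2 * (2 * n + 1 + 1) : ℕ) : ℤ) := by push_cast; ring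
      rw [this, zpow_natCast]
    have e2 : z ^ (2 * (2 * (n : ℤ) + 3)) = z ^ (2 * (2 * n + 1 + 1 + 1)) := by
      have : (2 * (2 * (n : ℤ) + 3)) = ((2 * (2 * n + 1 + 1 + 1) : ℕ) : ℤ) := by push_cast; ring
      rw [this, zpow_natCast]
    have e3 : z ^ (2 * ((n : ℤ) + 1)) = z ^ (2 * (n + 1)) := by
      have : (2 * ((n : ℤ) + 1)) = ((2 * (n + 1) : ℕ) : ℤ) := by push_cast; ring
      rw [this, zpow_natCast]
    rw [e1, e2, e3] at hrec
    have p1 := fac_pos h0 h1 (2 * n + 1)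
    have p2 := fac_pos h0 h1 (2 * n + 1 + 1)
    have p3 := qp_pos h0 h1 (2 * n + 1)
    have e4 : qp z (2 * (n + 1) + 1) = qp z (2 * n + 1) * (1 - z ^ (2 * (2 * n + 1 + 1))) *
        (1 - z ^ (2 * (2 * n + 1 + 1 + 1))) := by
      rw [show 2 * (n + 1) + 1 = (2 * n + 1 + 1) + 1 by ring, qp_succ, qp_succ]
    rw [e4, qp_succ]
    have h5 : WW z (n + 1) = ((1 - z ^ (2 * (n + 1))) ^ 2 * (2 * qp z n ^ 2 / qp z (2 * n + 1))) /
        ((1 - z ^ (2 * (2 * n + 1 + 1))) * (1 - z ^ (2 * (2 * n + 1 + 1 + 1)))) := by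
      rw [← hrec]
      field_simp
    rw [h5]
    field_simp

/-- The terms on the natural numbers. -/
noncomputable def ff (z : ℝ) (n k : ℕ) : ℝ :=
  (-1 : ℝ) ^ k * (2 * (k : ℝ) + 1) * z ^ (k * (k + 1)) *
    (hh z ((n : ℤ) - k) * hh z ((n : ℤ) + k + 1))

lemma sum_ff {z : ℝ} (h0 : 0 < z) (h1 : z < 1) (n : ℕ) :
    ∑' k : ℕ, ff z n k = (qp z n) ^ 2 / qp z (2 * n + 1) := by
  have hpos : ∀ k : ℕ, (2 * ((k : ℤ) : ℝ) + 1) * TT z n k = ff z n k := by
    intro k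
    unfold TT ff
    rw [zpow_natCast]
    have : z ^ ((k : ℤ) * ((k : ℤ) + 1)) = z ^ (k * (k + 1)) := by
      have : ((k : ℤ) * ((k : ℤ) + 1)) = ((k * (k + 1) : ℕ) : ℤ) := by push_cast; ring
      rw [this, zpow_natCast]
    rw [this]
    push_cast
    ring
  have hneg : ∀ k : ℕ, (2 * ((-((k : ℤ) + 1) : ℤ) : ℝ) + 1) * TT z n (-((k : ℤ) + 1)) = ff z n k := by
    intro k
    unfold TT ff
    have e1 : z ^ ((-((k : ℤ) + 1)) * (-((k : ℤ) + 1) + 1)) = z ^ (k * (k + 1)) := by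
      have : ((-((k : ℤ) + 1)) * (-((k : ℤ) + 1) + 1)) = ((k * (k + 1) : ℕ) : ℤ) := by
        push_cast; ring
      rw [this, zpow_natCast]
    have e2 : (-1 : ℝ) ^ (-((k : ℤ) + 1)) = -(-1 : ℝ) ^ k := by
      rw [zpow_neg, zpow_add₀ (by norm_num), zpow_natCast, zpow_one, mul_inv]
      have : ((-1 : ℝ) ^ k)⁻¹ = (-1 : ℝ) ^ k := by
        rw [inv_eq_iff_eq_inv, ← inv_pow]; norm_num
      rw [this]
      norm_num
    have e3 : hh z ((n : ℤ) - (-((k : ℤ) + 1))) = hh z ((n : ℤ) + k + 1) := by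
      have : (n : ℤ) - (-((k : ℤ) + 1)) = (n : ℤ) + k + 1 := by ring
      rw [this]
    have e4 : hh z ((n : ℤ) + (-((k : ℤ) + 1)) + 1) = hh z ((n : ℤ) - k) := by congr 1; ring
    rw [e1, e2, e3, e4]
    push_cast
    ring
  have hs := summable_TT z n (fun k => 2 * (k : ℝ) + 1)
  have hs1 : Summable (fun k : ℕ => (2 * ((k : ℤ) : ℝ) + 1) * TT z n k) :=
    hs.comp_injective Nat.cast_injective
  have hs2 : Summable (fun k : ℕ => (2 * ((-((k : ℤ) + 1) : ℤ) : ℝ) + 1) *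
      TT z n (-((k : ℤ) + 1))) := by
    refine hs1.congr fun k => ?_
    rw [hpos, hneg]
  have h3 : WW z n = (∑' k : ℕ, (2 * ((k : ℤ) : ℝ) + 1) * TT z n k) +
      ∑' k : ℕ, (2 * ((-((k : ℤ) + 1) : ℤ) : ℝ) + 1) * TT z n (-((k : ℤ) + 1)) :=
    tsum_of_nat_of_neg_add_one (f := fun k : ℤ => (2 * (k : ℝ) + 1) * TT z n k) hs1 hs2
  rw [tsum_congr hpos, tsum_congr hneg, WW_eq h0 h1] at h3
  have h4 : 2 * ∑' k : ℕ, ff z n k = 2 * (qp z n ^ 2 / qp z (2 * n + 1)) := by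
    rw [two_mul, ← h3]; ring
  linarith

/-- **Jacobi's identity** for the cube of Euler's product, as a limit of partial sums. -/
theorem jacobi {z G : ℝ} (h0 : 0 < z) (h1 : z < 1) (hG0 : 0 < G)
    (hG : Tendsto (qp z) atTop (𝓝 G)) (hGle : ∀ n, G ≤ qp z n) :
    Tendsto (fun m : ℕ => ∑ k ∈ range m, (-1 : ℝ) ^ k * (2 * (k : ℝ) + 1) * z ^ (k * (k + 1)))
      atTop (𝓝 (G ^ 3)) := by
  have hbd : Summable (fun k : ℕ => (2 * (k : ℝ) + 1) * z ^ k * (G⁻¹ * G⁻¹)) := by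
    apply Summable.mul_right
    have e : (fun k : ℕ => (2 * (k : ℝ) + 1) * z ^ k) = fun k : ℕ => 2 * ((k : ℝ) ^ 1 * z ^ k) + z ^ k := by
      funext k; ring
    rw [e]
    apply Summable.add
    · apply Summable.mul_left
      exact summable_pow_mul_geometric_of_norm_lt_one 1 (by
        rw [Real.norm_of_nonneg h0.le]; exact h1)
    · exact summable_geometric_of_lt_one h0.le h1
  have hhle : ∀ m : ℤ, 0 ≤ hh z m ∧ hh z m ≤ G⁻¹ := by
    intro m
    rcases lt_or_ge m 0 with hm | hm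
    · rw [hh_of_neg z hm]
      exact ⟨le_rfl, by positivity⟩
    · obtain ⟨n, rfl⟩ := Int.eq_ofNat_of_zero_le hm
      rw [hh_of_nonneg]
      have := qp_pos h0 h1 n
      exact ⟨by positivity, inv_anti₀ hG0 (hGle n)⟩
  have hpow : ∀ k : ℕ, z ^ (k * (k + 1)) ≤ z ^ k := by
    intro k
    exact pow_le_pow_of_le_one h0.le h1.le (by nlinarith)
  have hlim : Tendsto (fun n : ℕ => ∑' k : ℕ, ff z n k) atTop
      (𝓝 (∑' k : ℕ, (-1 : ℝ) ^ k * (2 * (k : ℝ) + 1) * z ^ (k * (k + 1)) * (G⁻¹ * G⁻¹))) := by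
    apply tendsto_tsum_of_dominated_convergence hbd
    · intro k
      unfold ff
      apply Tendsto.const_mul
      apply Tendsto.mul
      · have h2 : Tendsto (fun n : ℕ => (qp z (n - k))⁻¹) atTop (𝓝 G⁻¹) :=
          (hG.comp (tendsto_sub_atTop_nat k)).inv₀ hG0.ne'
        refine h2.congr' ?_
        filter_upwards [eventually_ge_atTop k] with n hn
        have : ((n : ℤ) - k) = ((n - k : ℕ) : ℤ) := by omega
        rw [this, hh_of_nonneg]
      · have h2 : Tendsto (fun n : ℕ => (qp z (n + (k + 1)))⁻¹) atTop (𝓝 G⁻¹) :=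
          (hG.comp (tendsto_add_atTop_nat (k + 1))).inv₀ hG0.ne'
        refine h2.congr fun n => ?_
        have : ((n : ℤ) + k + 1) = ((n + (k + 1) : ℕ) : ℤ) := by push_cast; ring
        rw [this, hh_of_nonneg]
    · refine Eventually.of_forall fun n k => ?_
      unfold ff
      have hk : (0 : ℝ) ≤ 2 * (k : ℝ) + 1 := by positivity
      rw [norm_mul, norm_mul, norm_mul, norm_mul, norm_pow, norm_neg, norm_one, one_pow, one_mul,
        Real.norm_of_nonneg hk, Real.norm_of_nonneg (by positivity : 0 ≤ z ^ (k * (k + 1))),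
        Real.norm_of_nonneg (hhle _).1, Real.norm_of_nonneg (hhle _).1]
      have p1 := hhle ((n : ℤ) - k)
      have p2 := hhle ((n : ℤ) + k + 1)
      have p3 := hpow k
      have p4 : 0 ≤ z ^ k := by positivity
      exact mul_le_mul (mul_le_mul_of_nonneg_left p3 hk)
        (mul_le_mul p1.2 p2.2 p2.1 (by positivity)) (mul_nonneg p1.1 p2.1) (by positivity)
  have hlim2 : Tendsto (fun n : ℕ => ∑' k : ℕ, ff z n k) atTop (𝓝 (G ^ 2 / G)) := by
    have h2 : Tendsto (fun n : ℕ => (qp z n) ^ 2 / qp z (2 * n + 1)) atTop (𝓝 (G ^ 2 / G)) := by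
      apply Tendsto.div (hG.pow 2) _ hG0.ne'
      apply hG.comp
      apply tendsto_atTop_mono (fun n => (by omega : n ≤ 2 * n + 1)) tendsto_id
    exact h2.congr fun n => (sum_ff h0 h1 n).symm
  have heq := tendsto_nhds_unique hlim hlim2
  have hs : Summable (fun k : ℕ => (-1 : ℝ) ^ k * (2 * (k : ℝ) + 1) * z ^ (k * (k + 1))) := by
    have hbd' : Summable (fun k : ℕ => (2 * (k : ℝ) + 1) * z ^ k) := by
      have := hbd.mul_right (G * G)
      refine this.congr fun k => ?_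
      field_simp
    apply Summable.of_norm_bounded hbd'
    intro k
    have hk : (0 : ℝ) ≤ 2 * (k : ℝ) + 1 := by positivity
    rw [norm_mul, norm_mul, norm_pow, norm_neg, norm_one, one_pow, one_mul,
        Real.norm_of_nonneg hk, Real.norm_of_nonneg (by positivity : 0 ≤ z ^ (k * (k + 1)))]
    exact mul_le_mul_of_nonneg_left (hpow k) hk
  have h3 := hs.hasSum.tendsto_sum_nat
  have h4 : ∑' k : ℕ, (-1 : ℝ) ^ k * (2 * (k : ℝ) + 1) * z ^ (k * (k + 1)) = G ^ 3 := by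
    rw [tsum_mul_right] at heq
    field_simp at heq
    linarith [heq]
  rw [h4] at h3
  exact h3

end Pool.Agent.Lib.MP_27c522_an
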