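import Pool.Agent.Lib.MP_27c522_an.Jacobi

set_option autoImplicit false

namespace Pool.Agent.Lib.MP_27c522_an

open Filter Topology Finset

/-- The value at `z` of the truncated series. -/
noncomputable def PP (n : ℕ) (z : ℝ) : ℝ :=
  ∑ k ∈ range (n + 1), (-1 : ℝ) ^ k * (2 * (k : ℝ) + 1) * z ^ (k * (k + 1))

/-- The absolute values of the terms. -/
noncomputable def aa (k : ℕ) (z : ℝ) : ℝ := (2 * (k : ℝ) + 1) * z ^ (k * (k + 1))

/-- The weight. -/
noncomputable def ww (n : ℕ) (z : ℝ) : ℝ := ((qp z n) ^ 3)⁻¹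

/-- The logarithmic derivative of the weight (times `z`). -/
noncomputable def psi (n : ℕ) (z : ℝ) : ℝ :=
  ∑ i ∈ range n, 6 * ((i : ℝ) + 1) * z ^ (2 * (i + 1)) / (1 - z ^ (2 * (i + 1)))

/-- The basic convexity inequality. -/
lemma conv {q : ℝ} (h0 : 0 ≤ q) (h1 : q ≤ 1) {i K : ℕ} (h : i ≤ K) :
    (K : ℝ) * q ^ K * (1 - q ^ i) ≤ i * q ^ i * (1 - q ^ K) := by
  induction K, h using Nat.le_induction with
  | base => exact le_rfl
  | succ K hK ih =>
    have hb : 1 - q ^ i ≤ i * (1 - q) := by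
      have := one_add_mul_le_pow (a := q - 1) (by linarith) i
      have e : 1 + (q - 1) = q := by ring
      rw [e] at this
      linarith
    have hq : q ^ (K + 1) ≤ q ^ i := pow_le_pow_of_le_one h0 h1 (by omega)
    have hqi : 0 ≤ q ^ i := by positivity
    have hqK : 0 ≤ q ^ (K + 1) := by positivity
    have h2 : q ^ (K + 1) * (1 - q ^ i) ≤ q ^ i * (i * (1 - q)) := by
      calc q ^ (K + 1) * (1 - q ^ i) ≤ q ^ (K + 1) * (i * (1 - q)) :=
            mul_le_mul_of_nonneg_left hb hqK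
        _ ≤ q ^ i * (i * (1 - q)) := by
            apply mul_le_mul_of_nonneg_right hq
            have : 0 ≤ 1 - q := by linarith
            positivity
    have h3 := mul_le_mul_of_nonneg_left ih h0
    push_cast
    have e1 : q ^ (K + 1) = q * q ^ K := by ring
    rw [e1] at h2 ⊢
    nlinarith

/-- The key inequality. -/
lemma key_ineq {q ψ : ℝ} (h0 : 0 < q) (h1 : q < 1) {n K : ℕ} (hn : 1 ≤ n) (hK : n + 2 ≤ K)
    (hq : (2 * (n : ℝ) + 1) * q ^ n ≤ 2 * n - 1)
    (hψ : 6 * (n : ℝ) * K * q ^ K ≤ ψ * (1 - q ^ K)) :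
    (2 * (K : ℝ) + 1) * q ^ K * (K * (K + 1) + ψ) < (2 * K - 1) * (K * (K - 1) + ψ) := by
  have hn' : (1 : ℝ) ≤ n := by exact_mod_cast hn
  have hK' : (n : ℝ) + 2 ≤ K := by exact_mod_cast hK
  have hu0 : 0 < q ^ K := by positivity
  have hqn0 : 0 < q ^ n := by positivity
  have hu1 : q ^ K < 1 := pow_lt_one₀ h0.le h1 (by omega)
  set u := q ^ K with hu
  set v := 1 - u with hv
  have hv0 : 0 < v := by rw [hv]; linarith
  have huv : u + v = 1 := by rw [hv]; ring
  -- lower bound for v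
  have h2 : 2 * (K : ℝ) * u ≤ n * (2 * n - 1) * v := by
    have h3 := conv h0.le h1.le (show n ≤ K by omega)
    have h4 : 2 * q ^ n ≤ (2 * n - 1) * (1 - q ^ n) := by linarith
    have h5 : 2 * (K : ℝ) * u * q ^ n ≤ (n * (2 * n - 1) * v) * q ^ n := by
      calc 2 * (K : ℝ) * u * q ^ n = K * u * (2 * q ^ n) := by ring
        _ ≤ K * u * ((2 * n - 1) * (1 - q ^ n)) := by gcongr
        _ = (2 * n - 1) * (K * u * (1 - q ^ n)) := by ring
        _ ≤ (2 * n - 1) * (n * q ^ n * (1 - u)) := by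
          apply mul_le_mul_of_nonneg_left h3; linarith
        _ = _ := by rw [← hv]; ring
    exact le_of_mul_le_mul_right h5 hqn0
  -- polynomial inequality
  have hpoly : (n : ℝ) ^ 2 * (2 * n - 1) < K * (n * (2 * K - 1) - K) := by
    obtain ⟨m, hm0, hm⟩ : ∃ m : ℝ, 2 ≤ m ∧ (K : ℝ) = n + m := ⟨K - n, by linarith, by ring⟩
    rw [hm]
    nlinarith [mul_nonneg (sub_nonneg.2 hn') (sub_nonneg.2 hm0), mul_pos (by linarith : 0 < (n : ℝ))
      (by linarith : 0 < m), mul_nonneg (mul_nonneg (sub_nonneg.2 hn') (sub_nonneg.2 hm0))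
      (by linarith : (0 : ℝ) ≤ n), mul_nonneg (mul_nonneg (sub_nonneg.2 hn') (sub_nonneg.2 hm0))
      (by linarith : (0 : ℝ) ≤ m), mul_nonneg (sub_nonneg.2 hn') (sq_nonneg m),
      mul_nonneg (sub_nonneg.2 hm0) (sq_nonneg (n : ℝ)), sq_nonneg ((n : ℝ) - m)]
  have hcoef : 0 < (n : ℝ) * (2 * K - 1) - K := by nlinarith
  have h3 : 2 * (n : ℝ) * u < (n * (2 * K - 1) - K) * v := by
    have hnn : 0 < (n : ℝ) * (2 * n - 1) := by nlinarith
    have h4 : (n * (2 * K - 1) - K) * (2 * (K : ℝ) * u) ≤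
        (n * (2 * K - 1) - K) * (n * (2 * n - 1) * v) :=
      mul_le_mul_of_nonneg_left h2 hcoef.le
    have h5 : 2 * (n : ℝ) * u * (n * (2 * n - 1)) < (n * (2 * K - 1) - K) * v * (n * (2 * n - 1)) := by
      have h6 : 2 * u * ((n : ℝ) ^ 2 * (2 * n - 1)) < 2 * u * (K * (n * (2 * K - 1) - K)) := by
        apply mul_lt_mul_of_pos_left hpoly; positivity
      nlinarith
    exact lt_of_mul_lt_mul_right h5 hnn.le
  have h4 : 0 ≤ (2 * (K : ℝ) - 1) * v - 2 * u := by
    have h5 : 2 * (n : ℝ) * u ≤ (n * (2 * K - 1)) * v := by nlinarith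
    have h6 : (n : ℝ) * (2 * u) ≤ n * ((2 * K - 1) * v) := by linarith
    have := le_of_mul_le_mul_left h6 (by linarith : (0 : ℝ) < n)
    linarith
  -- conclusion
  have hE : 0 < v * ((2 * (K : ℝ) - 1) * K * (K - 1) * v - 6 * K ^ 2 * u +
      ψ * ((2 * K - 1) * v - 2 * u)) := by
    have h5 : (6 * (n : ℝ) * K * u) * ((2 * K - 1) * v - 2 * u) ≤
        (ψ * v) * ((2 * K - 1) * v - 2 * u) := mul_le_mul_of_nonneg_right hψ h4
    have h6 : 0 ≤ (2 * (K : ℝ) - 1) * K * (K - 1) * v ^ 2 := by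
      have : 0 ≤ (2 * (K : ℝ) - 1) := by linarith
      have : 0 ≤ ((K : ℝ) - 1) := by linarith
      positivity
    have h7 : 0 < 6 * (K : ℝ) * u * ((n * (2 * K - 1) - K) * v - 2 * n * u) := by
      have : 0 < (n * (2 * (K : ℝ) - 1) - K) * v - 2 * n * u := by linarith
      have : (0 : ℝ) < K := by linarith
      positivity
    nlinarith
  have hE' := (mul_pos_iff_of_pos_left hv0).1 hE
  have hfin : (2 * (K : ℝ) - 1) * (K * (K - 1) + ψ) - (2 * K + 1) * u * (K * (K + 1) + ψ) =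
      (2 * (K : ℝ) - 1) * K * (K - 1) * v - 6 * K ^ 2 * u + ψ * ((2 * K - 1) * v - 2 * u) := by
    rw [hv]; ring
  linarith

section
variable {z : ℝ} (h0 : 0 < z) (h1 : z < 1)
include h0 h1

lemma psi_bound (n K : ℕ) (hnK : n ≤ K) :
    6 * (n : ℝ) * K * (z ^ 2) ^ K ≤ psi n z * (1 - (z ^ 2) ^ K) := by
  have hq0 : 0 < z ^ 2 := by positivity
  have hq1 : z ^ 2 < 1 := pow_lt_one₀ h0.le h1 (by norm_num)
  unfold psi
  rw [sum_mul]
  have h2 : ∀ i ∈ range n, 6 * (K : ℝ) * (z ^ 2) ^ K ≤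
      6 * ((i : ℝ) + 1) * z ^ (2 * (i + 1)) / (1 - z ^ (2 * (i + 1))) * (1 - (z ^ 2) ^ K) := by
    intro i hi
    have hi' : i + 1 ≤ K := by have := mem_range.1 hi; omega
    have h3 := conv hq0.le hq1.le hi'
    have h4 := fac_pos h0 h1 i
    rw [div_mul_eq_mul_div, le_div_iff₀ h4]
    rw [← pow_mul z 2 (i + 1)] at h3
    push_cast at h3
    nlinarith
  calc 6 * (n : ℝ) * K * (z ^ 2) ^ K = ∑ i ∈ range n, 6 * (K : ℝ) * (z ^ 2) ^ K := by
        rw [sum_const, card_range, nsmul_eq_mul]; ring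
    _ ≤ _ := sum_le_sum h2

lemma hasDerivAt_qp (n : ℕ) :
    HasDerivAt (fun x => qp x n) (-(qp z n * psi n z) / (3 * z)) z := by
  induction n with
  | zero =>
    have : (fun x => qp x 0) = fun _ : ℝ => (1 : ℝ) := by funext x; exact qp_zero x
    rw [this]
    have e : psi 0 z = 0 := by simp [psi]
    rw [e]
    simpa using hasDerivAt_const z (1 : ℝ)
  | succ n ih =>
    have hf : (fun x => qp x (n + 1)) = fun x => qp x n * (1 - x ^ (2 * (n + 1))) := by
      funext x; exact qp_succ x n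
    rw [hf]
    have hd : HasDerivAt (fun x : ℝ => 1 - x ^ (2 * (n + 1)))
        (-(((2 * (n + 1) : ℕ) : ℝ) * z ^ (2 * (n + 1) - 1))) z :=
      (hasDerivAt_pow (2 * (n + 1)) z).const_sub 1
    have h2 := ih.mul hd
    have e : psi (n + 1) z = psi n z + 6 * ((n : ℝ) + 1) * z ^ (2 * (n + 1)) /
        (1 - z ^ (2 * (n + 1))) := by
      rw [psi, sum_range_succ, ← psi]
    have hfac := fac_pos h0 h1 n
    have hval : -(qp z n * psi n z) / (3 * z) * (1 - z ^ (2 * (n + 1))) +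
        qp z n * -(((2 * (n + 1) : ℕ) : ℝ) * z ^ (2 * (n + 1) - 1)) =
        -(qp z (n + 1) * psi (n + 1) z) / (3 * z) := by
      rw [qp_succ, e]
      have e2 : z ^ (2 * (n + 1)) = z * z ^ (2 * (n + 1) - 1) := by
        rw [← pow_succ']; congr 1
      have hne : 1 - z * z ^ (2 * (n + 1) - 1) ≠ 0 := by rw [← e2]; exact hfac.ne'
      rw [e2]
      push_cast
      field_simp
      ring
    rw [hval] at h2
    exact h2

lemma hasDerivAt_ww (n : ℕ) : HasDerivAt (ww n) (ww n z * psi n z / z) z := by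
  have h2 := ((hasDerivAt_qp h0 h1 n).pow 3).inv (pow_pos (qp_pos h0 h1 n) 3).ne'
  have hval : -(((3 : ℕ) : ℝ) * (qp z n) ^ (3 - 1) * (-(qp z n * psi n z) / (3 * z))) /
      ((qp z n) ^ 3) ^ 2 = ww n z * psi n z / z := by
    have := qp_pos h0 h1 n
    unfold ww
    push_cast
    field_simp
  have h3 : HasDerivAt (ww n) (-(((3 : ℕ) : ℝ) * (qp z n) ^ (3 - 1) *
      (-(qp z n * psi n z) / (3 * z))) / ((qp z n) ^ 3) ^ 2) z := h2
  rw [hval] at h3
  exact h3

omit h1 in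
lemma hasDerivAt_aa (k : ℕ) : HasDerivAt (aa k) ((k : ℝ) * (k + 1) * aa k z / z) z := by
  have h2 := (hasDerivAt_pow (k * (k + 1)) z).const_mul (2 * (k : ℝ) + 1)
  have hval : (2 * (k : ℝ) + 1) * (((k * (k + 1) : ℕ) : ℝ) * z ^ (k * (k + 1) - 1)) =
      (k : ℝ) * (k + 1) * aa k z / z := by
    unfold aa
    rcases Nat.eq_zero_or_pos k with rfl | hk
    · simp
    · have e2 : z ^ (k * (k + 1)) = z * z ^ (k * (k + 1) - 1) := by
        rw [← pow_succ']; congr 1
        have : 0 < k * (k + 1) := by positivity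
        omega
      rw [e2]
      push_cast
      field_simp
  rw [hval] at h2
  exact h2

/-- The weighted difference of two consecutive terms has positive derivative. -/
lemma hasDerivAt_beta (n k : ℕ) :
    HasDerivAt (fun x => (aa k x - aa (k + 1) x) * ww n x)
      (ww n z / z * (((k : ℝ) * (k + 1) + psi n z) * aa k z -
        (((k : ℝ) + 1) * (k + 2) + psi n z) * aa (k + 1) z)) z := by
  have h2 := ((hasDerivAt_aa h0 k).sub (hasDerivAt_aa h0 (k + 1))).mul (hasDerivAt_ww h0 h1 n)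
  have hval : ((k : ℝ) * (k + 1) * aa k z / z - ((k + 1 : ℕ) : ℝ) * (((k + 1 : ℕ) : ℝ) + 1) *
      aa (k + 1) z / z) * ww n z + (aa k z - aa (k + 1) z) * (ww n z * psi n z / z) =
      ww n z / z * (((k : ℝ) * (k + 1) + psi n z) * aa k z -
        (((k : ℝ) + 1) * (k + 2) + psi n z) * aa (k + 1) z) := by
    push_cast
    field_simp
    ring
  have h3 : HasDerivAt (fun x => (aa k x - aa (k + 1) x) * ww n x)
      (((k : ℝ) * (k + 1) * aa k z / z - ((k + 1 : ℕ) : ℝ) * (((k + 1 : ℕ) : ℝ) + 1) *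
      aa (k + 1) z / z) * ww n z + (aa k z - aa (k + 1) z) * (ww n z * psi n z / z)) z := h2
  rw [hval] at h3
  exact h3

lemma beta_deriv_pos {n k : ℕ} (hn : 1 ≤ n) (hk : n + 1 ≤ k)
    (hq : (2 * (n : ℝ) + 1) * (z ^ 2) ^ n ≤ 2 * n - 1) :
    0 < ww n z / z * (((k : ℝ) * (k + 1) + psi n z) * aa k z -
        (((k : ℝ) + 1) * (k + 2) + psi n z) * aa (k + 1) z) := by
  have hq0 : 0 < z ^ 2 := by positivity
  have hq1 : z ^ 2 < 1 := pow_lt_one₀ h0.le h1 (by norm_num)
  have hw : 0 < ww n z := by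
    have := qp_pos h0 h1 n
    unfold ww; positivity
  apply mul_pos (by positivity)
  have h2 := key_ineq hq0 hq1 hn (show n + 2 ≤ k + 1 by omega) hq
    (psi_bound h0 h1 n (k + 1) (by omega))
  push_cast at h2
  have e1 : aa (k + 1) z = (2 * (k : ℝ) + 3) * (z ^ 2) ^ (k + 1) * z ^ (k * (k + 1)) := by
    unfold aa
    rw [← pow_mul]
    push_cast
    have : z ^ ((k + 1) * (k + 1 + 1)) = z ^ (2 * (k + 1)) * z ^ (k * (k + 1)) := by
      rw [← pow_add]; congr 1; ring
    rw [this]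
    ring
  have e2 : aa k z = (2 * (k : ℝ) + 1) * z ^ (k * (k + 1)) := rfl
  rw [e1, e2]
  have hz : 0 < z ^ (k * (k + 1)) := by positivity
  have h3 : 0 < z ^ (k * (k + 1)) * ((2 * ((k : ℝ) + 1) - 1) * (((k : ℝ) + 1) * ((k : ℝ) + 1 - 1) +
      psi n z) - (2 * ((k : ℝ) + 1) + 1) * (z ^ 2) ^ (k + 1) * (((k : ℝ) + 1) * ((k : ℝ) + 1 + 1) +
      psi n z)) := by
    apply mul_pos hz
    linarith
  calc 0 < _ := h3
    _ = _ := by ring

end

/-- The region on which the monotonicity is proved. -/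
def Reg (n : ℕ) (z : ℝ) : Prop := 0 < z ∧ z < 1 ∧ (2 * (n : ℝ) + 1) * (z ^ 2) ^ n ≤ 2 * n - 1

lemma Reg.mono {n : ℕ} {z z' : ℝ} (h : Reg n z') (h0 : 0 < z) (hz : z ≤ z') : Reg n z := by
  refine ⟨h0, lt_of_le_of_lt hz h.2.1, le_trans ?_ h.2.2⟩
  gcongr

lemma beta_mono {n k : ℕ} (hn : 1 ≤ n) (hk : n + 1 ≤ k) {z z' : ℝ} (h0 : 0 < z) (hz : z ≤ z')
    (hR : Reg n z') :
    (aa k z - aa (k + 1) z) * ww n z ≤ (aa k z' - aa (k + 1) z') * ww n z' := by
  have hmono : MonotoneOn (fun x => (aa k x - aa (k + 1) x) * ww n x) (Set.Icc z z') := by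
    have hreg : ∀ x ∈ Set.Icc z z', Reg n x := fun x hx => hR.mono (h0.trans_le hx.1) hx.2
    apply monotoneOn_of_deriv_nonneg (convex_Icc z z')
    · intro x hx
      have := hreg x hx
      exact (hasDerivAt_beta this.1 this.2.1 n k).continuousAt.continuousWithinAt
    · intro x hx
      have := hreg x (interior_subset hx)
      exact (hasDerivAt_beta this.1 this.2.1 n k).differentiableAt.differentiableWithinAt
    · intro x hx
      have := hreg x (interior_subset hx)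
      rw [(hasDerivAt_beta this.1 this.2.1 n k).deriv]
      exact (beta_deriv_pos this.1 this.2.1 hn hk this.2.2).le
  exact hmono ⟨le_rfl, hz⟩ ⟨hz, le_rfl⟩ hz

lemma qp_ratio {z z' : ℝ} (h0 : 0 < z) (hz : z ≤ z') (h1 : z' < 1) (n r : ℕ) :
    qp z' (n + r) * qp z n ≤ qp z (n + r) * qp z' n := by
  induction r with
  | zero => rw [add_zero]; linarith [mul_comm (qp z' n) (qp z n)]
  | succ r ih =>
    rw [← add_assoc, qp_succ, qp_succ]
    have h0' : 0 < z' := h0.trans_le hz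
    have h2 : z ^ (2 * (n + r + 1)) ≤ z' ^ (2 * (n + r + 1)) := by gcongr
    have h3 := fac_pos h0' h1 (n + r)
    have h4 := qp_pos h0 (hz.trans_lt h1) (n + r)
    have h5 := qp_pos h0' h1 n
    calc qp z' (n + r) * (1 - z' ^ (2 * (n + r + 1))) * qp z n
        = (qp z' (n + r) * qp z n) * (1 - z' ^ (2 * (n + r + 1))) := by ring
      _ ≤ (qp z (n + r) * qp z' n) * (1 - z' ^ (2 * (n + r + 1))) := by gcongr
      _ ≤ (qp z (n + r) * qp z' n) * (1 - z ^ (2 * (n + r + 1))) := by gcongr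
      _ = _ := by ring

lemma lim_ratio {z z' G G' : ℝ} (h0 : 0 < z) (hz : z ≤ z') (h1 : z' < 1)
    (hG : Tendsto (qp z) atTop (𝓝 G)) (hG' : Tendsto (qp z') atTop (𝓝 G')) (_hG0 : 0 < G)
    (hG'0 : 0 < G') (n : ℕ) : G' ^ 3 * ww n z' ≤ G ^ 3 * ww n z := by
  have h2 : G' * qp z n ≤ G * qp z' n := by
    have e1 : Tendsto (fun r => qp z' (n + r) * qp z n) atTop (𝓝 (G' * qp z n)) := by
      apply Tendsto.mul_const
      have := (tendsto_add_atTop_iff_nat n).2 hG'
      refine this.congr fun r => ?_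
      rw [add_comm]
    have e2 : Tendsto (fun r => qp z (n + r) * qp z' n) atTop (𝓝 (G * qp z' n)) := by
      apply Tendsto.mul_const
      have := (tendsto_add_atTop_iff_nat n).2 hG
      refine this.congr fun r => ?_
      rw [add_comm]
    exact le_of_tendsto_of_tendsto' e1 e2 fun r => qp_ratio h0 hz h1 n r
  have p1 := qp_pos h0 (hz.trans_lt h1) n
  have p2 := qp_pos (h0.trans_le hz) h1 n
  unfold ww
  rw [← div_eq_mul_inv, ← div_eq_mul_inv, ← div_pow, ← div_pow]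
  apply pow_le_pow_left₀ (by positivity)
  rw [div_le_div_iff₀ p2 p1]
  exact h2

lemma PP_succ_two (n : ℕ) (hn : Odd n) (z : ℝ) :
    PP (n + 2) z = PP n z + (aa (n + 1) z - aa (n + 2) z) := by
  unfold PP
  rw [sum_range_succ, sum_range_succ]
  obtain ⟨m, rfl⟩ := hn
  have e1 : (-1 : ℝ) ^ (2 * m + 1 + 1) = 1 := by
    rw [show 2 * m + 1 + 1 = 2 * (m + 1) by ring, pow_mul]; norm_num
  have e2 : (-1 : ℝ) ^ (2 * m + 1 + 2) = -1 := by
    rw [show 2 * m + 1 + 2 = 2 * (m + 1) + 1 by ring, pow_succ, pow_mul]; norm_num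
  rw [e1, e2]
  unfold aa
  ring

/-- the truncations of order `≥ n + 2` -/
lemma PP_weighted_le {n : ℕ} (hn : Odd n) {z z' : ℝ} (h0 : 0 < z) (hz : z ≤ z') (hR : Reg n z') :
    PP (n + 2) z' * ww n z' ≤ PP (n + 2) z * ww n z := by
  have hn1 : 1 ≤ n := hn.pos
  have hz1 : z < 1 := hz.trans_lt hR.2.1
  obtain ⟨G, hG0, hG, hGle⟩ := exists_lim h0 hz1
  obtain ⟨G', hG'0, hG', hG'le⟩ := exists_lim hR.1 hR.2.1
  have key : ∀ r : ℕ, PP (n + 2) z' * ww n z' - PP (n + 2) z * ww n z ≤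
      PP (n + 2 + 2 * r) z' * ww n z' - PP (n + 2 + 2 * r) z * ww n z := by
    intro r
    induction r with
    | zero => simp
    | succ r ih =>
      have hodd : Odd (n + 2 + 2 * r) := by
        obtain ⟨m, hm⟩ := hn
        exact ⟨m + 1 + r, by omega⟩
      have e1 := PP_succ_two (n + 2 + 2 * r) hodd z
      have e2 := PP_succ_two (n + 2 + 2 * r) hodd z'
      have e3 : n + 2 + 2 * (r + 1) = n + 2 + 2 * r + 2 := by ring
      rw [e3, e1, e2]
      have h2 := beta_mono (k := n + 2 + 2 * r + 1) hn1 (by omega) h0 hz hR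
      have e4 : n + 2 + 2 * r + 1 + 1 = n + 2 + 2 * r + 2 := by ring
      rw [e4] at h2
      linarith
  have hlim : ∀ {y H : ℝ}, 0 < y → y < 1 → 0 < H → Tendsto (qp y) atTop (𝓝 H) →
      (∀ m, H ≤ qp y m) → Tendsto (fun r : ℕ => PP (n + 2 + 2 * r) y) atTop (𝓝 (H ^ 3)) := by
    intro y H hy0 hy1 hH0 hH hHle
    have h3 := jacobi hy0 hy1 hH0 hH hHle
    have h4 : Tendsto (fun r : ℕ => n + 2 + 2 * r + 1) atTop atTop :=
      tendsto_atTop_mono (fun r => (by omega : r ≤ n + 2 + 2 * r + 1)) tendsto_id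
    exact h3.comp h4
  have hl : Tendsto (fun r : ℕ => PP (n + 2 + 2 * r) z' * ww n z' -
      PP (n + 2 + 2 * r) z * ww n z) atTop (𝓝 (G' ^ 3 * ww n z' - G ^ 3 * ww n z)) :=
    ((hlim hR.1 hR.2.1 hG'0 hG' hG'le).mul_const _).sub
      ((hlim h0 hz1 hG0 hG hGle).mul_const _)
  have h5 := ge_of_tendsto' hl key
  have h6 := lim_ratio h0 hz hR.2.1 hG hG' hG0 hG'0 n
  linarith

lemma differentiable_PP (n : ℕ) : Differentiable ℝ (PP n) := by
  unfold PP
  fun_prop

/-- The weighted truncation has negative derivative in the region. -/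
lemma deriv_neg {n : ℕ} (hn : Odd n) {z : ℝ} (hz0 : 0 < z) (hz1 : z < 1)
    (hR : (2 * (n : ℝ) + 1) * (z ^ 2) ^ n < 2 * n - 1) :
    deriv (fun x => PP n x * ww n x) z < 0 := by
  have hn1 : 1 ≤ n := hn.pos
  have hd1 : HasDerivAt (fun x => PP (n + 2) x * ww n x)
      (deriv (PP (n + 2)) z * ww n z + PP (n + 2) z * (ww n z * psi n z / z)) z :=
    ((differentiable_PP (n + 2)) z).hasDerivAt.mul (hasDerivAt_ww hz0 hz1 n)
  -- the set of points of the region
  set s : Set ℝ := {x | 0 < x ∧ x < 1 ∧ (2 * (n : ℝ) + 1) * (x ^ 2) ^ n < 2 * n - 1} with hs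
  have hopen : IsOpen s := by
    have e1 : IsOpen {x : ℝ | 0 < x} := isOpen_lt continuous_const continuous_id
    have e2 : IsOpen {x : ℝ | x < 1} := isOpen_lt continuous_id continuous_const
    have e3 : IsOpen {x : ℝ | (2 * (n : ℝ) + 1) * (x ^ 2) ^ n < 2 * n - 1} :=
      isOpen_lt (by fun_prop) continuous_const
    exact e1.inter (e2.inter e3)
  have hanti : AntitoneOn (fun x => PP (n + 2) x * ww n x) s := by
    intro x hx y hy hxy
    exact PP_weighted_le hn hx.1 hxy ⟨hy.1, hy.2.1, hy.2.2.le⟩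
  have hzs : z ∈ s := ⟨hz0, hz1, hR⟩
  have h2 : deriv (fun x => PP (n + 2) x * ww n x) z ≤ 0 := by
    rw [← derivWithin_of_isOpen hopen hzs]
    exact hanti.derivWithin_nonpos
  have hb := hasDerivAt_beta hz0 hz1 n (n + 1)
  have hbp := beta_deriv_pos hz0 hz1 hn1 (le_refl (n + 1)) hR.le
  have hfun : (fun x => PP n x * ww n x) = fun x => PP (n + 2) x * ww n x -
      (aa (n + 1) x - aa (n + 1 + 1) x) * ww n x := by
    funext x
    rw [PP_succ_two n hn x]
    ring
  rw [hfun]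
  have h3 := hd1.sub hb
  have h4 : deriv (fun x => PP (n + 2) x * ww n x - (aa (n + 1) x - aa (n + 1 + 1) x) * ww n x) z =
      deriv (fun x => PP (n + 2) x * ww n x) z - deriv (fun x => (aa (n + 1) x -
        aa (n + 1 + 1) x) * ww n x) z := by
    exact deriv_fun_sub hd1.differentiableAt hb.differentiableAt
  rw [h4, hb.deriv]
  linarith

/-- Sign of the truncation outside the region. -/
lemma PP_neg {n : ℕ} (hn : Odd n) (hn3 : 3 ≤ n) {z : ℝ} (h0 : 0 < z)
    (hz : 2 * (n : ℝ) - 1 ≤ (2 * (n : ℝ) + 1) * (z ^ 2) ^ n) : PP n z < 0 := by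
  have hq0 : 0 < z ^ 2 := by positivity
  -- consecutive terms
  have hratio : ∀ k : ℕ, 1 ≤ k → k ≤ n →
      (2 * (k : ℝ) - 1 ≤ (2 * k + 1) * (z ^ 2) ^ k) ∧
      (k < n → 2 * (k : ℝ) - 1 < (2 * k + 1) * (z ^ 2) ^ k) := by
    intro k hk1 hkn
    have hk1' : (1 : ℝ) ≤ k := by exact_mod_cast hk1
    have hkn' : (k : ℝ) ≤ n := by exact_mod_cast hkn
    rcases lt_or_ge (z ^ 2) 1 with hq1 | hq1
    · have h3 := conv hq0.le hq1.le hkn
      have hqn : 0 < (z ^ 2) ^ n := by positivity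
      have hqk : 0 < (z ^ 2) ^ k := by positivity
      set a := (z ^ 2) ^ n with ha
      set b := (z ^ 2) ^ k with hb
      have hn' : (3 : ℝ) ≤ n := by exact_mod_cast hn3
      -- (2n-1)(1-a) ≤ 2a
      have h4 : (2 * (n : ℝ) - 1) * (1 - a) ≤ 2 * a := by linarith
      -- n a (1-b) ≤ k b (1-a)
      have h5 : (2 * (n : ℝ) - 1) * (n * a * (1 - b)) ≤ k * b * (2 * a) := by
        calc (2 * (n : ℝ) - 1) * (n * a * (1 - b)) ≤ (2 * (n : ℝ) - 1) * (k * b * (1 - a)) := by
              apply mul_le_mul_of_nonneg_left h3; linarith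
          _ = k * b * ((2 * (n : ℝ) - 1) * (1 - a)) := by ring
          _ ≤ k * b * (2 * a) := by gcongr
      have h6 : (2 * (n : ℝ) - 1) * n * (1 - b) ≤ 2 * (k * b) := by
        have : (2 * (n : ℝ) - 1) * n * (1 - b) * a ≤ 2 * (k * b) * a := by linarith
        exact le_of_mul_le_mul_right this hqn
      have h7 : (k : ℝ) * (2 * k - 1) ≤ n * (2 * n - 1) := by nlinarith
      have hnn : 0 < (2 * (n : ℝ) - 1) * n := by nlinarith
      constructor
      · have h8 : (2 * (k : ℝ) - 1) * (1 - b) * ((2 * (n : ℝ) - 1) * n) ≤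
            2 * b * ((2 * (n : ℝ) - 1) * n) := by
          calc (2 * (k : ℝ) - 1) * (1 - b) * ((2 * (n : ℝ) - 1) * n)
              = (2 * k - 1) * ((2 * (n : ℝ) - 1) * n * (1 - b)) := by ring
            _ ≤ (2 * k - 1) * (2 * (k * b)) := by
              apply mul_le_mul_of_nonneg_left h6; linarith
            _ = 2 * b * (k * (2 * k - 1)) := by ring
            _ ≤ 2 * b * (n * (2 * n - 1)) := by gcongr
            _ = _ := by ring
        have h9 := le_of_mul_le_mul_right h8 hnn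
        linarith
      · intro hlt
        have hlt' : (k : ℝ) < n := by exact_mod_cast hlt
        have h7' : (k : ℝ) * (2 * k - 1) < n * (2 * n - 1) := by nlinarith
        have h8 : (2 * (k : ℝ) - 1) * (1 - b) * ((2 * (n : ℝ) - 1) * n) <
            2 * b * ((2 * (n : ℝ) - 1) * n) := by
          calc (2 * (k : ℝ) - 1) * (1 - b) * ((2 * (n : ℝ) - 1) * n)
              = (2 * k - 1) * ((2 * (n : ℝ) - 1) * n * (1 - b)) := by ring
            _ ≤ (2 * k - 1) * (2 * (k * b)) := by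
              apply mul_le_mul_of_nonneg_left h6; linarith
            _ = 2 * b * (k * (2 * k - 1)) := by ring
            _ < 2 * b * (n * (2 * n - 1)) := by gcongr
            _ = _ := by ring
        have h9 := lt_of_mul_lt_mul_right h8 hnn.le
        linarith
    · have h2 : 1 ≤ (z ^ 2) ^ k := one_le_pow₀ hq1
      have h3 : (2 * (k : ℝ) + 1) * 1 ≤ (2 * k + 1) * (z ^ 2) ^ k := by gcongr
      exact ⟨by linarith, fun _ => by linarith⟩
  have haa : ∀ k : ℕ, aa (k + 1) z = (2 * ((k : ℝ) + 1) + 1) * (z ^ 2) ^ (k + 1) *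
      z ^ (k * (k + 1)) := by
    intro k
    unfold aa
    rw [← pow_mul]
    push_cast
    have : z ^ ((k + 1) * (k + 1 + 1)) = z ^ (2 * (k + 1)) * z ^ (k * (k + 1)) := by
      rw [← pow_add]; congr 1; ring
    rw [this]
    ring
  have hle : ∀ k : ℕ, k + 1 ≤ n → aa k z ≤ aa (k + 1) z := by
    intro k hk
    have h2 := (hratio (k + 1) (by omega) hk).1
    rw [haa]
    have hz' : 0 < z ^ (k * (k + 1)) := by positivity
    push_cast at h2
    have : aa k z = (2 * ((k : ℝ) + 1) - 1) * z ^ (k * (k + 1)) := by unfold aa; ring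
    rw [this]
    gcongr
  have hlt0 : aa 0 z < aa 1 z := by
    have h2 := (hratio 1 le_rfl (by omega)).2 (by omega)
    unfold aa
    norm_num at h2 ⊢
    linarith
  obtain ⟨m, rfl⟩ := hn
  have hsum : ∀ j : ℕ, j ≤ m → PP (2 * j + 1) z ≤ aa 0 z - aa 1 z := by
    intro j
    induction j with
    | zero =>
      intro _
      unfold PP aa
      rw [mul_zero, zero_add, sum_range_succ, sum_range_succ, sum_range_zero]
      apply le_of_eq
      push_cast
      ring
    | succ j ih =>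
      intro hj
      have h3 := ih (by omega)
      have h4 := PP_succ_two (2 * j + 1) ⟨j, rfl⟩ z
      have h5 := hle (2 * j + 1 + 1) (by omega)
      have e : 2 * (j + 1) + 1 = 2 * j + 1 + 2 := by ring
      rw [e, h4]
      have e2 : 2 * j + 1 + 1 + 1 = 2 * j + 1 + 2 := by ring
      rw [e2] at h5
      linarith
  have := hsum m le_rfl
  linarith

end Pool.Agent.Lib.MP_27c522_an
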